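import Mathlib
import Pool.Agent.Q240.KT.Stm

/-!
Project KT of helper240: job KT-IBP (integration by parts in a kept term)
-/

set_option autoImplicit false

namespace Pool.Agent.Q162.KT

open Finset Pool.Agent.H376R2.MR Pool.Agent.Q240.KS Pool.Agent.Q240.KT MeasureTheory

theorem ep_cont (τ κ : ℝ) : Continuous (ep τ κ) := by
  unfold ep
  fun_prop

theorem ep_shift (k : ℝ) (j : ℕ) (hj : 1 ≤ j) (r : ℝ) :
    ep k (-(2 * Real.pi * j)) (r - Real.log j) =
      Complex.exp (((k * Real.log j : ℝ) : ℂ) * Complex.I) * ep k (-(2 * Real.pi)) r := by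
  unfold ep
  rw [← Complex.exp_add]
  congr 1
  have hj0 : (0 : ℝ) < j := by exact_mod_cast hj
  have h1 : Real.exp (r - Real.log j) = Real.exp r / j := by
    rw [Real.exp_sub, Real.exp_log hj0]
  have h2 : k * (r - Real.log j) + -(2 * Real.pi * j) * Real.exp (r - Real.log j) =
      -(k * Real.log j) + (k * r + -(2 * Real.pi) * Real.exp r) := by
    rw [h1]
    field_simp
    ring
  rw [h2]
  push_cast
  ring

/-- job KT-IBP -/
theorem ibp : S_IBP := by
  intro p q s₀ k j hj
  set l : ℝ := Real.log j with hl
  set a : ℝ := s₀ - 1 / 20 + l with ha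
  set b : ℝ := s₀ + 1 / 20 + l with hb
  set mm : ℝ := s₀ + l with hmm
  set E' : ℝ → ℂ := ep k (-(2 * Real.pi)) with hE'
  set E : ℝ → ℂ := fun r => ∫ x in (0 : ℝ)..r, E' x with hE
  have hE'c : Continuous E' := ep_cont _ _
  have hEd : ∀ r, HasDerivAt E (E' r) r := fun r =>
    intervalIntegral.integral_hasDerivAt_right (hE'c.intervalIntegrable _ _)
      (hE'c.stronglyMeasurableAtFilter _ _) hE'c.continuousAt
  have hEc : Continuous E := continuous_iff_continuousAt.mpr fun r => (hEd r).continuousAt
  -- substitution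
  have h1 : ∫ s in (s₀ - 1 / 20)..(s₀ + 1 / 20),
      ((am20 p q s₀ s : ℝ) : ℂ) * ep k (-(2 * Real.pi * j)) s =
      Complex.exp (((k * l : ℝ) : ℂ) * Complex.I) *
        ∫ r in a..b, ((am20 p q s₀ (r - l) : ℝ) : ℂ) * E' r := by
    have h2 := intervalIntegral.integral_comp_sub_right (a := a) (b := b)
      (fun s => ((am20 p q s₀ s : ℝ) : ℂ) * ep k (-(2 * Real.pi * j)) s) l
    have h3 : a - l = s₀ - 1 / 20 := by rw [ha]; ring
    have h4 : b - l = s₀ + 1 / 20 := by rw [hb]; ring
    rw [h3, h4] at h2
    rw [← h2, ← intervalIntegral.integral_const_mul]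
    refine intervalIntegral.integral_congr fun r _ => ?_
    rw [hl, ep_shift k j hj r]
    ring
  rw [h1, neg_mul, ← mul_neg]
  congr 1
  have ham : a ≤ mm := by rw [ha, hmm]; linarith
  have hmb : mm ≤ b := by rw [hb, hmm]; linarith
  -- the amplitude on the halves
  set u1 : ℝ → ℂ := fun r => (((p + q * (r - mm)) * (1 + 20 * (r - mm)) : ℝ) : ℂ) with hu1
  set u1' : ℝ → ℂ := fun r => ((q * (1 + 20 * (r - mm)) + 20 * (p + q * (r - mm)) : ℝ) : ℂ)
    with hu1'
  set u2 : ℝ → ℂ := fun r => (((p + q * (r - mm)) * (1 - 20 * (r - mm)) : ℝ) : ℂ) with hu2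
  set u2' : ℝ → ℂ := fun r => ((q * (1 - 20 * (r - mm)) - 20 * (p + q * (r - mm)) : ℝ) : ℂ)
    with hu2'
  have hd1 : ∀ r, HasDerivAt u1 (u1' r) r := by
    intro r
    have h2 : HasDerivAt (fun r : ℝ => (p + q * (r - mm)) * (1 + 20 * (r - mm)))
        (q * (1 + 20 * (r - mm)) + (p + q * (r - mm)) * 20) r := by
      have h3 : HasDerivAt (fun r : ℝ => p + q * (r - mm)) q r := by
        have := (((hasDerivAt_id r).sub_const mm).const_mul q).const_add p
        simpa using this
      have h4 : HasDerivAt (fun r : ℝ => 1 + 20 * (r - mm)) 20 r := by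
        have := (((hasDerivAt_id r).sub_const mm).const_mul (20 : ℝ)).const_add 1
        simpa using this
      exact h3.mul h4
    have h3 := h2.ofReal_comp
    rw [hu1, hu1']
    convert h3 using 2
    ring
  have hd2 : ∀ r, HasDerivAt u2 (u2' r) r := by
    intro r
    have h2 : HasDerivAt (fun r : ℝ => (p + q * (r - mm)) * (1 - 20 * (r - mm)))
        (q * (1 - 20 * (r - mm)) + (p + q * (r - mm)) * (-20)) r := by
      have h3 : HasDerivAt (fun r : ℝ => p + q * (r - mm)) q r := by
        have := (((hasDerivAt_id r).sub_const mm).const_mul q).const_add p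
        simpa using this
      have h4 : HasDerivAt (fun r : ℝ => 1 - 20 * (r - mm)) (-20) r := by
        have := (((hasDerivAt_id r).sub_const mm).const_mul (20 : ℝ)).const_sub 1
        simpa using this
      exact h3.mul h4
    have h3 := h2.ofReal_comp
    rw [hu2, hu2']
    convert h3 using 2
    ring
  have hc1 : Continuous u1' := by rw [hu1']; fun_prop
  have hc2 : Continuous u2' := by rw [hu2']; fun_prop
  have hI1 := intervalIntegral.integral_mul_deriv_eq_deriv_mul (a := a) (b := mm)
    (fun r _ => hd1 r) (fun r _ => hEd r) (hc1.intervalIntegrable _ _)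
    (hE'c.intervalIntegrable _ _)
  have hI2 := intervalIntegral.integral_mul_deriv_eq_deriv_mul (a := mm) (b := b)
    (fun r _ => hd2 r) (fun r _ => hEd r) (hc2.intervalIntegrable _ _)
    (hE'c.intervalIntegrable _ _)
  have hu1a : u1 a = 0 := by
    rw [hu1]
    have : a - mm = -(1 / 20) := by rw [ha, hmm]; ring
    simp only [this]
    norm_num
  have hu2b : u2 b = 0 := by
    rw [hu2]
    have : b - mm = 1 / 20 := by rw [hb, hmm]; ring
    simp only [this]
    norm_num
  have hum : u1 mm = u2 mm := by
    rw [hu1, hu2]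
    simp
  -- the amplitude equals u1, u2
  have hamc : Continuous fun r : ℝ => ((am20 p q s₀ (r - l) : ℝ) : ℂ) * E' r := by
    refine Continuous.mul ?_ hE'c
    unfold am20 w
    fun_prop
  have hL : ∫ r in a..b, ((am20 p q s₀ (r - l) : ℝ) : ℂ) * E' r =
      (∫ r in a..mm, u1 r * E' r) + ∫ r in mm..b, u2 r * E' r := by
    rw [← intervalIntegral.integral_add_adjacent_intervals (hamc.intervalIntegrable a mm)
      (hamc.intervalIntegrable mm b)]
    congr 1
    · refine intervalIntegral.integral_congr fun r hr => ?_
      rw [Set.uIcc_of_le ham, Set.mem_Icc] at hr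
      refine congrArg (fun z : ℂ => z * E' r) ?_
      rw [hu1]
      unfold am20 w
      have h2 : r - l - s₀ = r - mm := by rw [hmm]; ring
      rw [h2]
      have h3 : r - mm ≤ 0 := by linarith [hr.2]
      have h4 : -(1 / 20) ≤ r - mm := by
        have := hr.1
        rw [ha] at this
        rw [hmm]
        linarith
      rw [abs_of_nonpos (by linarith), max_eq_right (by linarith)]
      congr 1
      ring
    · refine intervalIntegral.integral_congr fun r hr => ?_
      rw [Set.uIcc_of_le hmb, Set.mem_Icc] at hr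
      refine congrArg (fun z : ℂ => z * E' r) ?_
      rw [hu2]
      unfold am20 w
      have h2 : r - l - s₀ = r - mm := by rw [hmm]; ring
      rw [h2]
      have h3 : 0 ≤ r - mm := by linarith [hr.1]
      have h4 : r - mm ≤ 1 / 20 := by
        have := hr.2
        rw [hb] at this
        rw [hmm]
        linarith
      rw [abs_of_nonneg (by linarith), max_eq_right (by linarith)]
  have hR : ∫ r in a..b, ((am20' p q s₀ (r - l) : ℝ) : ℂ) * E r =
      (∫ r in a..mm, u1' r * E r) + ∫ r in mm..b, u2' r * E r := by
    have hc1' : Continuous fun r => u1' r * E r := hc1.mul hEc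
    have hc2' : Continuous fun r => u2' r * E r := hc2.mul hEc
    have hae1 : ∀ᵐ r ∂(volume.restrict (Set.uIoc a mm)),
        ((am20' p q s₀ (r - l) : ℝ) : ℂ) * E r = u1' r * E r := by
      rw [ae_restrict_iff' measurableSet_uIoc]
      have h2 : ∀ᵐ r : ℝ, r ≠ mm := by simp [ae_iff, measure_singleton]
      filter_upwards [h2] with r hrm hr
      rw [Set.uIoc_of_le ham, Set.mem_Ioc] at hr
      congr 1
      rw [hu1']
      unfold am20' w
      have h2 : r - l - s₀ = r - mm := by rw [hmm]; ring
      have h3 : r - mm < 0 := by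
        rcases lt_or_eq_of_le hr.2 with h | h
        · linarith
        · exact absurd h hrm
      have h4 : -(1 / 20) < r - mm := by
        have := hr.1
        rw [ha] at this
        rw [hmm]
        linarith
      have h5 : |r - mm| < 1 / 20 := by
        rw [abs_lt]
        constructor <;> linarith
      have h6 : ¬ s₀ ≤ r - l := by
        intro h
        rw [hmm] at h3
        linarith
      rw [h2, if_pos h5, if_neg h6, abs_of_nonpos (by linarith), max_eq_right (by linarith)]
      congr 1
      ring
    have hae2 : ∀ᵐ r ∂(volume.restrict (Set.uIoc mm b)),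
        ((am20' p q s₀ (r - l) : ℝ) : ℂ) * E r = u2' r * E r := by
      rw [ae_restrict_iff' measurableSet_uIoc]
      have h2 : ∀ᵐ r : ℝ, r ≠ b := by simp [ae_iff, measure_singleton]
      filter_upwards [h2] with r hrm hr
      rw [Set.uIoc_of_le hmb, Set.mem_Ioc] at hr
      congr 1
      rw [hu2']
      unfold am20' w
      have h2 : r - l - s₀ = r - mm := by rw [hmm]; ring
      have h3 : 0 < r - mm := by linarith [hr.1]
      have h4 : r - mm < 1 / 20 := by
        rcases lt_or_eq_of_le hr.2 with h | h
        · rw [hb] at h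
          rw [hmm]
          linarith
        · exact absurd h hrm
      have h5 : |r - mm| < 1 / 20 := by
        rw [abs_lt]
        constructor <;> linarith
      have h6 : s₀ ≤ r - l := by
        rw [hmm] at h3
        linarith
      rw [h2, if_pos h5, if_pos h6, abs_of_nonneg (by linarith), max_eq_right (by linarith)]
      congr 1
      ring
    have hi1 : IntervalIntegrable (fun r => ((am20' p q s₀ (r - l) : ℝ) : ℂ) * E r) volume a mm :=
      (hc1'.intervalIntegrable a mm).congr_ae (hae1.mono fun r hr => hr.symm)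
    have hi2 : IntervalIntegrable (fun r => ((am20' p q s₀ (r - l) : ℝ) : ℂ) * E r) volume mm b :=
      (hc2'.intervalIntegrable mm b).congr_ae (hae2.mono fun r hr => hr.symm)
    rw [← intervalIntegral.integral_add_adjacent_intervals hi1 hi2]
    congr 1
    · exact intervalIntegral.integral_congr_ae_restrict hae1
    · exact intervalIntegral.integral_congr_ae_restrict hae2
  rw [hL, hI1, hI2, hu1a, hu2b, hum, hR]
  ring

end Pool.Agent.Q162.KT
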