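import Mathlib
import Pool.Agent.Q240.KT.Stm

/-!
Project KT of helper240: job KT-LVR (large values of a smooth factor by reflection)
-/

set_option autoImplicit false

namespace Pool.Agent.Q162.KT

open Finset Pool.Agent.H376R2.MR Pool.Agent.Q240.KS Pool.Agent.Q240.KT

theorem ell_bound (m : ℕ) (ε : ℝ) (hm : 1 ≤ m) (hε : 0 < ε) : ∃ Cl : ℝ, 1 ≤ Cl ∧
    ∀ (d : ℕ) (T : ℝ), 1 ≤ T → Real.exp ((d : ℝ) / 20) ≤ 10 * T →
      ((1 + (d : ℝ)) * (1 + Real.log T)) ^ (2 * m) ≤ Cl * T ^ (ε / 4) := by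
  have hm0 : (0 : ℝ) < m := by exact_mod_cast hm
  set δ : ℝ := ε / (16 * m) with hδ
  have hδ0 : 0 < δ := by positivity
  have h1δ : (1 : ℝ) ≤ 1 + 1 / δ := by
    have : 0 < 1 / δ := by positivity
    linarith
  refine ⟨181 ^ (2 * m) * (1 + 1 / δ) ^ (4 * m), ?_, ?_⟩
  · exact one_le_mul_of_one_le_of_one_le (one_le_pow₀ (by norm_num)) (one_le_pow₀ h1δ)
  · intro d T hT hd
    have hT0 : 0 < T := by linarith
    have hlog : 0 ≤ Real.log T := Real.log_nonneg hT
    have h1 : (d : ℝ) / 20 ≤ Real.log 10 + Real.log T := by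
      rw [← Real.log_mul (by norm_num) hT0.ne', Real.le_log_iff_exp_le (by positivity)]
      exact hd
    have h2 : Real.log 10 ≤ 9 := by
      have := Real.log_le_sub_one_of_pos (show (0 : ℝ) < 10 by norm_num)
      linarith
    have h3 : 1 + (d : ℝ) ≤ 181 * (1 + Real.log T) := by linarith
    have h4 : Real.log T ≤ T ^ δ / δ := Real.log_le_rpow_div hT0.le hδ0
    have h5 : (1 : ℝ) ≤ T ^ δ := Real.one_le_rpow hT hδ0.le
    have h6 : 1 + Real.log T ≤ (1 + 1 / δ) * T ^ δ := by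
      have h7 : T ^ δ / δ = 1 / δ * T ^ δ := by ring
      rw [h7] at h4
      linarith
    have h7 : (1 + (d : ℝ)) * (1 + Real.log T) ≤ 181 * ((1 + 1 / δ) * T ^ δ) ^ 2 := by
      calc (1 + (d : ℝ)) * (1 + Real.log T) ≤ (181 * (1 + Real.log T)) * (1 + Real.log T) :=
            mul_le_mul_of_nonneg_right h3 (by linarith)
        _ = 181 * (1 + Real.log T) ^ 2 := by ring
        _ ≤ 181 * ((1 + 1 / δ) * T ^ δ) ^ 2 := by
            refine mul_le_mul_of_nonneg_left ?_ (by norm_num)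
            exact pow_le_pow_left₀ (by linarith) h6 2
    calc ((1 + (d : ℝ)) * (1 + Real.log T)) ^ (2 * m)
        ≤ (181 * ((1 + 1 / δ) * T ^ δ) ^ 2) ^ (2 * m) :=
          pow_le_pow_left₀ (by positivity) h7 _
      _ = 181 ^ (2 * m) * (1 + 1 / δ) ^ (4 * m) * (T ^ δ) ^ (4 * m) := by
          rw [mul_pow, ← pow_mul, mul_pow]
          have : 2 * (2 * m) = 4 * m := by ring
          rw [this]
          ring
      _ = 181 ^ (2 * m) * (1 + 1 / δ) ^ (4 * m) * T ^ (ε / 4) := by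
          congr 1
          rw [← Real.rpow_natCast, ← Real.rpow_mul hT0.le]
          congr 1
          rw [hδ]
          push_cast
          field_simp
          ring

/-- job KT-LVR -/
theorem lvr (hRFL : S_RFL) (hPMV : S_PMV) : S_LVR := by
  classical
  intro m ε hm hε
  obtain ⟨Cr, hCr, hrfl⟩ := hRFL
  obtain ⟨Cp, hCp, hpmv⟩ := hPMV m (ε / 4) hm (by linarith)
  obtain ⟨Cl, hCl, hell⟩ := ell_bound m ε hm hε
  set D : ℝ := 3 * Cp * 13 ^ (ε / 4) * 13 ^ (2 * m) with hD
  have h13 : (1 : ℝ) ≤ 13 ^ (ε / 4) := Real.one_le_rpow (by norm_num) (by linarith)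
  have hD0 : 0 ≤ D := by positivity
  set A0 : ℝ := (2 * Cr) ^ (2 * m) * Cl with hA0
  have hA01 : 1 ≤ A0 := one_le_mul_of_one_le_of_one_le (one_le_pow₀ (by linarith)) hCl
  refine ⟨A0 * (6 + D), by nlinarith, ?_⟩
  intro z t d T V L ht hT hd hV hL
  have hT0 : 0 < T := by linarith
  have hlog : 0 ≤ Real.log T := Real.log_nonneg hT
  set n : ℝ := (L.card : ℝ) with hn
  have hn0 : 0 ≤ n := Nat.cast_nonneg _
  set N1 : ℝ := Real.exp (-(m * d / 20 : ℝ)) with hN1
  set N2 : ℝ := Real.exp (-(m * d / 10 : ℝ)) with hN2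
  have hN10 : 0 < N1 := Real.exp_pos _
  have hN20 : 0 < N2 := Real.exp_pos _
  have hVp : 0 < V ^ (2 * m) := pow_pos hV _
  have hTm : 0 < T ^ m := pow_pos hT0 _
  rw [le_div_iff₀ hVp]
  -- the cardinality
  have hcard : n ≤ 6 * T := by
    have h1 : L ⊆ Icc (-⌊2 * T⌋) ⌊2 * T⌋ := by
      intro k hk
      have h2 := abs_le.mp (hL k hk).2.1
      rw [mem_Icc]
      refine ⟨?_, Int.le_floor.mpr h2.2⟩
      have h3 : -k ≤ ⌊2 * T⌋ := by
        rw [Int.le_floor]
        push_cast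
        linarith [h2.1]
      linarith
    have h2 := card_le_card h1
    rw [Int.card_Icc] at h2
    have h3 : (0 : ℤ) ≤ ⌊2 * T⌋ := Int.floor_nonneg.mpr (by positivity)
    have h4 : ((L.card : ℕ) : ℤ) ≤ 2 * ⌊2 * T⌋ + 1 := by omega
    have h5 : (L.card : ℝ) ≤ 2 * (⌊2 * T⌋ : ℝ) + 1 := by exact_mod_cast h4
    have h6 := Int.floor_le (2 * T)
    rw [hn]
    linarith
  have hTε : T ^ (ε / 4) ≤ T ^ ε := Real.rpow_le_rpow_of_exponent_le hT (by linarith)
  have hTε0 : 0 < T ^ ε := Real.rpow_pos_of_pos hT0 _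
  have hRHS : 0 ≤ T * N1 + T ^ m * N2 := by positivity
  set ell : ℝ := (1 + (d : ℝ)) * (1 + Real.log T) with hell'
  have hell0 : 0 ≤ ell := by positivity
  have hellb := hell d T hT hd
  obtain ⟨H, s, a, hH1, hH2, hs, ha, hsum⟩ := hrfl z t d T L ht hT
    (fun k hk => ⟨(hL k hk).1, (hL k hk).2.1⟩) hd
  set X : ℝ := ∑ k ∈ L, ‖DP s (fun n => ((a n : ℝ) : ℂ)) k‖ with hX
  have hX0 : 0 ≤ X := sum_nonneg fun _ _ => norm_nonneg _
  have hnV : n * V ≤ ∑ k ∈ L, ‖PF z t d k‖ := by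
    calc n * V = ∑ _k ∈ L, V := by rw [sum_const, nsmul_eq_mul]
      _ ≤ ∑ k ∈ L, ‖PF z t d k‖ := sum_le_sum fun k hk => (hL k hk).2.2
  have hmain : n * V ≤ Cr * ell * (T ^ (-(1 / 2) : ℝ) * X + Real.exp (-((d : ℝ) / 10)) * n) := by
    refine hnV.trans (hsum.trans (le_of_eq ?_))
    rw [hell']
    ring
  rcases Nat.eq_zero_or_pos L.card with hL0 | hL0
  · have : n = 0 := by rw [hn, hL0, Nat.cast_zero]
    rw [this, zero_mul]
    positivity
  have hn1 : 0 < n := by rw [hn]; exact_mod_cast hL0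
  have hCre : 0 ≤ Cr * ell := mul_nonneg (by linarith) hell0
  rcases le_total (T ^ (-(1 / 2) : ℝ) * X) (Real.exp (-((d : ℝ) / 10)) * n) with hcase | hcase
  · -- the second term dominates
    have h1 : V ≤ 2 * Cr * ell * Real.exp (-((d : ℝ) / 10)) := by
      have h2 : n * V ≤ n * (2 * Cr * ell * Real.exp (-((d : ℝ) / 10))) := by
        calc n * V ≤ Cr * ell * (T ^ (-(1 / 2) : ℝ) * X + Real.exp (-((d : ℝ) / 10)) * n) := hmain
          _ ≤ Cr * ell * (Real.exp (-((d : ℝ) / 10)) * n + Real.exp (-((d : ℝ) / 10)) * n) :=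
              mul_le_mul_of_nonneg_left (by linarith) hCre
          _ = n * (2 * Cr * ell * Real.exp (-((d : ℝ) / 10))) := by ring
      exact le_of_mul_le_mul_left h2 hn1
    have h2 : V ^ (2 * m) ≤ A0 * T ^ (ε / 4) * N1 := by
      calc V ^ (2 * m) ≤ (2 * Cr * ell * Real.exp (-((d : ℝ) / 10))) ^ (2 * m) :=
            pow_le_pow_left₀ hV.le h1 _
        _ = (2 * Cr) ^ (2 * m) * ell ^ (2 * m) * (Real.exp (-((d : ℝ) / 10))) ^ (2 * m) := by
            rw [mul_pow, mul_pow]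
        _ ≤ (2 * Cr) ^ (2 * m) * (Cl * T ^ (ε / 4)) * N1 := by
            refine mul_le_mul (mul_le_mul_of_nonneg_left hellb (by positivity)) ?_ (by positivity)
              (by positivity)
            rw [← Real.exp_nat_mul, hN1]
            apply Real.exp_le_exp.mpr
            push_cast
            have h3 : (0 : ℝ) ≤ m * d := by positivity
            nlinarith
        _ = A0 * T ^ (ε / 4) * N1 := by rw [hA0]; ring
    calc n * V ^ (2 * m) ≤ (6 * T) * (A0 * T ^ (ε / 4) * N1) :=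
          mul_le_mul hcard h2 hVp.le (by positivity)
      _ ≤ (6 * T) * (A0 * T ^ ε * N1) := by gcongr
      _ = A0 * 6 * T ^ ε * (T * N1) := by ring
      _ ≤ A0 * (6 + D) * T ^ ε * (T * N1 + T ^ m * N2) := by
          gcongr
          · linarith
          · have : 0 ≤ T ^ m * N2 := by positivity
            linarith
  · -- the first term dominates
    have h1 : n * V ≤ 2 * Cr * ell * T ^ (-(1 / 2) : ℝ) * X := by
      calc n * V ≤ Cr * ell * (T ^ (-(1 / 2) : ℝ) * X + Real.exp (-((d : ℝ) / 10)) * n) := hmain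
        _ ≤ Cr * ell * (T ^ (-(1 / 2) : ℝ) * X + T ^ (-(1 / 2) : ℝ) * X) :=
            mul_le_mul_of_nonneg_left (by linarith) hCre
        _ = 2 * Cr * ell * T ^ (-(1 / 2) : ℝ) * X := by ring
    set Y : ℝ := ∑ k ∈ L, ‖DP s (fun n => ((a n : ℝ) : ℂ)) k‖ ^ (2 * m) with hY
    have hX2 : X ^ (2 * m) ≤ n ^ (2 * m - 1) * Y := by
      have h2 := pow_sum_le_card_mul_sum_pow (s := L)
        (f := fun k => ‖DP s (fun n => ((a n : ℝ) : ℂ)) k‖) (fun _ _ => norm_nonneg _) (2 * m - 1)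
      have h3 : 2 * m - 1 + 1 = 2 * m := by omega
      rw [h3] at h2
      exact h2
    set K : ℕ := ⌊2 * T⌋₊ + 1 with hK
    have hKT : (K : ℝ) ≤ 3 * T := by
      rw [hK]
      push_cast
      have := Nat.floor_le (show 0 ≤ 2 * T by positivity)
      linarith
    have hLK : L ⊆ FK K := by
      intro k hk
      have h2 := abs_le.mp (hL k hk).2.1
      have h3 : |k| < (K : ℤ) := by
        have h4 : ((|k| : ℤ) : ℝ) < K := by
          push_cast
          rw [hK]
          push_cast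
          exact lt_of_le_of_lt (hL k hk).2.1 (Nat.lt_floor_add_one _)
        exact_mod_cast h4
      unfold FK
      rw [mem_Ioo]
      exact abs_lt.mp h3
    have hYb : Y ≤ Cp * H ^ (ε / 4) * (H ^ (2 * m) + K * H ^ m) := by
      refine le_trans ?_ (hpmv s (fun n => ((a n : ℝ) : ℂ)) H K hH1 (by omega) hs (fun n hn => ?_))
      · exact sum_le_sum_of_subset_of_nonneg hLK fun _ _ _ => by positivity
      · rw [Complex.norm_real, Real.norm_eq_abs]
        exact ha n hn
    -- the size of `H`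
    set R : ℝ := T * Real.exp (-((d : ℝ) / 20)) with hR
    have hR0 : 0 < R := by positivity
    have hR1 : 1 ≤ 10 * R := by
      rw [hR, ← mul_assoc, Real.exp_neg, ← div_eq_mul_inv, le_div_iff₀ (Real.exp_pos _), one_mul]
      exact hd
    have hHR : H ≤ 13 * R := by
      have h2 : H ≤ 1 + 3 * R := by
        rw [hR, ← mul_assoc]
        exact hH2
      linarith
    have hRT : R ≤ T := by
      rw [hR]
      have h2 : Real.exp (-((d : ℝ) / 20)) ≤ 1 := by
        rw [Real.exp_le_one_iff]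
        have : (0 : ℝ) ≤ d := Nat.cast_nonneg _
        linarith
      nlinarith
    have hH0 : 0 < H := by linarith
    have hHe : H ^ (ε / 4) ≤ 13 ^ (ε / 4) * T ^ (ε / 4) := by
      rw [← Real.mul_rpow (by norm_num) hT0.le]
      exact Real.rpow_le_rpow hH0.le (by linarith) (by linarith)
    have hHm : H ^ (2 * m) + K * H ^ m ≤ 3 * 13 ^ (2 * m) * (R ^ (2 * m) + T * R ^ m) := by
      have h2 : H ^ (2 * m) ≤ 13 ^ (2 * m) * R ^ (2 * m) := by
        rw [← mul_pow]
        exact pow_le_pow_left₀ hH0.le hHR _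
      have h3 : H ^ m ≤ 13 ^ (2 * m) * R ^ m := by
        calc H ^ m ≤ (13 * R) ^ m := pow_le_pow_left₀ hH0.le hHR _
          _ = 13 ^ m * R ^ m := mul_pow _ _ _
          _ ≤ 13 ^ (2 * m) * R ^ m := by
              refine mul_le_mul_of_nonneg_right (pow_le_pow_right₀ (by norm_num) (by omega))
                (by positivity)
      have h4 : (K : ℝ) * H ^ m ≤ (3 * T) * (13 ^ (2 * m) * R ^ m) :=
        mul_le_mul hKT h3 (by positivity) (by positivity)
      have h5 : (0 : ℝ) ≤ 13 ^ (2 * m) * R ^ (2 * m) := by positivity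
      calc H ^ (2 * m) + K * H ^ m
          ≤ 13 ^ (2 * m) * R ^ (2 * m) + (3 * T) * (13 ^ (2 * m) * R ^ m) := add_le_add h2 h4
        _ ≤ 3 * (13 ^ (2 * m) * R ^ (2 * m)) + (3 * T) * (13 ^ (2 * m) * R ^ m) := by linarith
        _ = 3 * 13 ^ (2 * m) * (R ^ (2 * m) + T * R ^ m) := by ring
    have hRm : R ^ m = T ^ m * N1 := by
      rw [hR, mul_pow, ← Real.exp_nat_mul, hN1]
      congr 2
      ring
    have hR2m : R ^ (2 * m) = T ^ m * (T ^ m * N2) := by
      rw [hR, mul_pow, ← Real.exp_nat_mul, hN2, ← mul_assoc, ← pow_add]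
      have h2 : 2 * m = m + m := by ring
      rw [h2]
      congr 2
      push_cast
      ring
    have hRR : R ^ (2 * m) + T * R ^ m = T ^ m * (T * N1 + T ^ m * N2) := by
      rw [hRm, hR2m]
      ring
    have hYb2 : Y ≤ D * T ^ (ε / 4) * (T ^ m * (T * N1 + T ^ m * N2)) := by
      calc Y ≤ Cp * H ^ (ε / 4) * (H ^ (2 * m) + K * H ^ m) := hYb
        _ ≤ Cp * (13 ^ (ε / 4) * T ^ (ε / 4)) *
            (3 * 13 ^ (2 * m) * (R ^ (2 * m) + T * R ^ m)) := by
            refine mul_le_mul (mul_le_mul_of_nonneg_left hHe (by linarith)) hHm (by positivity)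
              (by positivity)
        _ = D * T ^ (ε / 4) * (T ^ m * (T * N1 + T ^ m * N2)) := by
            rw [hRR, hD]
            ring
    -- the power
    have hThalf : (T ^ (-(1 / 2) : ℝ)) ^ (2 * m) = (T ^ m)⁻¹ := by
      rw [← Real.rpow_natCast, ← Real.rpow_mul hT0.le, ← Real.rpow_natCast, ← Real.rpow_neg hT0.le]
      congr 1
      push_cast
      ring
    have hpow : n ^ (2 * m) * V ^ (2 * m) ≤ n ^ (2 * m - 1) *
        ((2 * Cr) ^ (2 * m) * ell ^ (2 * m) * (T ^ m)⁻¹ * Y) := by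
      calc n ^ (2 * m) * V ^ (2 * m) = (n * V) ^ (2 * m) := by rw [mul_pow]
        _ ≤ (2 * Cr * ell * T ^ (-(1 / 2) : ℝ) * X) ^ (2 * m) :=
            pow_le_pow_left₀ (by positivity) h1 _
        _ = (2 * Cr) ^ (2 * m) * ell ^ (2 * m) * (T ^ m)⁻¹ * X ^ (2 * m) := by
            rw [mul_pow, mul_pow, mul_pow, hThalf]
        _ ≤ (2 * Cr) ^ (2 * m) * ell ^ (2 * m) * (T ^ m)⁻¹ * (n ^ (2 * m - 1) * Y) :=
            mul_le_mul_of_nonneg_left hX2 (by positivity)
        _ = _ := by ring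
    have hn2 : n ^ (2 * m) = n ^ (2 * m - 1) * n := by
      rw [← pow_succ]
      congr 1
      omega
    rw [hn2, mul_assoc] at hpow
    have hfin := le_of_mul_le_mul_left hpow (pow_pos hn1 _)
    have hY0 : 0 ≤ Y := sum_nonneg fun _ _ => by positivity
    calc n * V ^ (2 * m) ≤ (2 * Cr) ^ (2 * m) * ell ^ (2 * m) * (T ^ m)⁻¹ * Y := hfin
      _ ≤ (2 * Cr) ^ (2 * m) * (Cl * T ^ (ε / 4)) * (T ^ m)⁻¹ *
          (D * T ^ (ε / 4) * (T ^ m * (T * N1 + T ^ m * N2))) := by
          refine mul_le_mul ?_ hYb2 hY0 (by positivity)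
          refine mul_le_mul_of_nonneg_right ?_ (by positivity)
          exact mul_le_mul_of_nonneg_left hellb (by positivity)
      _ = A0 * D * (T ^ (ε / 4) * T ^ (ε / 4)) * (T * N1 + T ^ m * N2) := by
          rw [hA0]
          field_simp
      _ ≤ A0 * D * T ^ ε * (T * N1 + T ^ m * N2) := by
          refine mul_le_mul_of_nonneg_right (mul_le_mul_of_nonneg_left ?_ (by positivity)) hRHS
          rw [← Real.rpow_add hT0]
          exact Real.rpow_le_rpow_of_exponent_le hT (by linarith)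
      _ ≤ A0 * (6 + D) * T ^ ε * (T * N1 + T ^ m * N2) := by
          gcongr
          linarith

end Pool.Agent.Q162.KT
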