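import Mathlib
import Pool.Agent.Q240.KT.Stm

/-!
Project KT of helper240: job KT-RT (the mean value theorem)
-/

set_option autoImplicit false

namespace Pool.Agent.Q162.KT

open Finset Pool.Agent.H376R2.MR Pool.Agent.Q240.KS Pool.Agent.Q240.KT

theorem sum_inv_sq_le (n : ℕ) : ∑ g ∈ Icc 1 n, 1 / (g : ℝ) ^ 2 ≤ 2 := by
  have h : ∀ n : ℕ, 1 ≤ n → ∑ g ∈ Icc 1 n, 1 / (g : ℝ) ^ 2 ≤ 2 - 1 / (n : ℝ) := by
    intro n hn
    induction n, hn using Nat.le_induction with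
    | base => norm_num
    | succ n hn ih =>
      rw [sum_Icc_succ_top (by omega)]
      have hn0 : (0 : ℝ) < n := by exact_mod_cast hn
      have h1 : 1 / ((n + 1 : ℕ) : ℝ) ^ 2 ≤ 1 / (n : ℝ) - 1 / ((n + 1 : ℕ) : ℝ) := by
        push_cast
        have h2 : 1 / (n : ℝ) - 1 / ((n : ℝ) + 1) = 1 / (n * (n + 1)) := by
          field_simp
          ring
        rw [h2]
        apply one_div_le_one_div_of_le (by positivity)
        nlinarith
      linarith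
  rcases Nat.eq_zero_or_pos n with h0 | h0
  · subst h0
    norm_num
  · have h1 := h n h0
    have h2 : (0 : ℝ) ≤ 1 / (n : ℝ) := by positivity
    linarith

theorem sum_inv_le (M : ℝ) (hM : 1 ≤ M) :
    ∑ g ∈ Icc 1 ⌊M⌋₊, 1 / (g : ℝ) ≤ 1 + Real.log M := by
  have h1 := harmonic_floor_le_one_add_log M hM
  rw [harmonic_eq_sum_Icc] at h1
  push_cast at h1
  simpa only [one_div] using h1

/-- job KT-RT -/
theorem rt (h1 : S_RT1) (h2 : S_RT2) (h5 : S_RT5) : S_RT := by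
  intro ε hε
  obtain ⟨C1, hC1, hrt1⟩ := h1
  obtain ⟨C5, hC5, hrt5⟩ := h5 ε hε
  refine ⟨6 * C1 * C5, by nlinarith, ?_⟩
  intro K v U c s b A M hK hUv hUs hc hM hA hs
  have h6 := hrt1 K v U c s b A M hK hUv hc hM hA hs
  refine h6.trans ?_
  have hK0 : (0 : ℝ) < K := by exact_mod_cast hK
  have hM0 : 0 < M := by linarith
  set M1 : ℝ := Real.exp (1 / 2) * M with hM1
  have he1 : (1 : ℝ) ≤ Real.exp (1 / 2) := Real.one_le_exp (by norm_num)
  have he2 : Real.exp (1 / 2) ^ 2 ≤ 3 := by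
    rw [← Real.exp_nat_mul]
    have h7 := Real.exp_one_lt_d9
    norm_num
    linarith
  have he3 : Real.exp (1 / 2) ≤ 2 := by nlinarith
  have hM11 : 1 ≤ M1 := by nlinarith
  have hM10 : 0 < M1 := by linarith
  have hlogM1 : Real.log M1 = 1 / 2 + Real.log M := by
    rw [hM1, Real.log_mul (Real.exp_pos _).ne' hM0.ne', Real.log_exp]
  have hlogM : 0 ≤ Real.log M := Real.log_nonneg hM
  have hsM : ∀ m ∈ s, 1 ≤ m ∧ (m : ℝ) ≤ M1 := by
    intro m hm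
    obtain ⟨h7, h8, -⟩ := hs m hm
    refine ⟨h7, ?_⟩
    have hm0 : (0 : ℝ) < m := by exact_mod_cast h7
    rw [← Real.log_le_log_iff hm0 hM10, hlogM1]
    have h9 := (abs_le.mp h8).2
    linarith
  have hNQ := h2 U s K M1 hsM
  set n : ℝ := (U.card : ℝ) with hn
  have hn0 : 0 ≤ n := Nat.cast_nonneg _
  set Q : ℝ := n + n ^ (7 / 4 : ℝ) * (K : ℝ) ^ (-(1 / 4) : ℝ) with hQ
  have hQ0 : 0 ≤ Q := by positivity
  have hPQ : ∀ g ∈ Icc 1 ⌊M1⌋₊, (PQ U K 1 (M1 / g) : ℝ) ≤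
      C5 * (K : ℝ) ^ ε * (n ^ 2 * M1 ^ 2 / K * (1 / (g : ℝ) ^ 2) + Q * M1 * (1 / (g : ℝ))) := by
    intro g hg
    rw [mem_Icc] at hg
    have hg0 : (0 : ℝ) < g := by exact_mod_cast hg.1
    have hgM : (g : ℝ) ≤ M1 := by
      have h7 := Nat.floor_le hM10.le
      exact le_trans (by exact_mod_cast hg.2) h7
    have h7 := hrt5 U v K hK hUv hUs (M1 / g) (by rwa [le_div_iff₀ hg0, one_mul])
    rw [← hn] at h7
    refine h7.trans (le_of_eq ?_)
    rw [hQ]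
    ring
  have hNQr : (NQ U s K : ℝ) ≤ C5 * (K : ℝ) ^ ε * (6 * (1 + Real.log M) *
      (n ^ 2 * M ^ 2 / K + Q * M)) := by
    have hKε : 0 ≤ C5 * (K : ℝ) ^ ε := by positivity
    calc (NQ U s K : ℝ) ≤ ∑ g ∈ Icc 1 ⌊M1⌋₊, (PQ U K 1 (M1 / g) : ℝ) := by exact_mod_cast hNQ
      _ ≤ ∑ g ∈ Icc 1 ⌊M1⌋₊, C5 * (K : ℝ) ^ ε *
          (n ^ 2 * M1 ^ 2 / K * (1 / (g : ℝ) ^ 2) + Q * M1 * (1 / (g : ℝ))) := sum_le_sum hPQ
      _ = C5 * (K : ℝ) ^ ε * (n ^ 2 * M1 ^ 2 / K * (∑ g ∈ Icc 1 ⌊M1⌋₊, 1 / (g : ℝ) ^ 2) +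
          Q * M1 * ∑ g ∈ Icc 1 ⌊M1⌋₊, 1 / (g : ℝ)) := by
          rw [← mul_sum, sum_add_distrib, ← mul_sum, ← mul_sum]
      _ ≤ C5 * (K : ℝ) ^ ε * (n ^ 2 * M1 ^ 2 / K * 2 + Q * M1 * (1 + Real.log M1)) := by
          refine mul_le_mul_of_nonneg_left (add_le_add ?_ ?_) hKε
          · exact mul_le_mul_of_nonneg_left (sum_inv_sq_le _) (by positivity)
          · exact mul_le_mul_of_nonneg_left (sum_inv_le M1 hM11) (by positivity)
      _ ≤ C5 * (K : ℝ) ^ ε * (6 * (1 + Real.log M) * (n ^ 2 * M ^ 2 / K + Q * M)) := by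
          refine mul_le_mul_of_nonneg_left ?_ hKε
          have h8 : n ^ 2 * M1 ^ 2 / K * 2 ≤ 6 * (1 + Real.log M) * (n ^ 2 * M ^ 2 / K) := by
            have h9 : n ^ 2 * M1 ^ 2 / K * 2 = (Real.exp (1 / 2) ^ 2 * 2) *
                (n ^ 2 * M ^ 2 / K) := by
              rw [hM1]
              ring
            rw [h9]
            refine mul_le_mul_of_nonneg_right ?_ (by positivity)
            nlinarith
          have h9 : Q * M1 * (1 + Real.log M1) ≤ 6 * (1 + Real.log M) * (Q * M) := by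
            have h10 : Q * M1 * (1 + Real.log M1) =
                (Real.exp (1 / 2) * (3 / 2 + Real.log M)) * (Q * M) := by
              rw [hlogM1, hM1]
              ring
            rw [h10]
            refine mul_le_mul_of_nonneg_right ?_ (by positivity)
            have h11 : Real.exp (1 / 2) * (3 / 2 + Real.log M) ≤ 2 * (3 / 2 + Real.log M) :=
              mul_le_mul_of_nonneg_right he3 (by linarith)
            nlinarith
          linarith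
  have hKK : (K : ℝ) * (K : ℝ) ^ (-(1 / 4) : ℝ) = (K : ℝ) ^ (3 / 4 : ℝ) := by
    nth_rewrite 1 [← Real.rpow_one (K : ℝ)]
    rw [← Real.rpow_add hK0]
    norm_num
  calc C1 * A ^ 2 * K / M ^ 2 * NQ U s K
      ≤ C1 * A ^ 2 * K / M ^ 2 * (C5 * (K : ℝ) ^ ε * (6 * (1 + Real.log M) *
        (n ^ 2 * M ^ 2 / K + Q * M))) :=
        mul_le_mul_of_nonneg_left hNQr (by positivity)
    _ = 6 * C1 * C5 * A ^ 2 * (1 + Real.log M) * (K : ℝ) ^ ε * (n ^ 2 + (K * n +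
        n ^ (7 / 4 : ℝ) * ((K : ℝ) * (K : ℝ) ^ (-(1 / 4) : ℝ))) / M) := by
        rw [hQ]
        field_simp
    _ = 6 * C1 * C5 * A ^ 2 * (1 + Real.log M) * (K : ℝ) ^ ε * (n ^ 2 + (K * n +
        n ^ (7 / 4 : ℝ) * (K : ℝ) ^ (3 / 4 : ℝ)) / M) := by rw [hKK]

end Pool.Agent.Q162.KT
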