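import Mathlib
import Pool.Agent.Q240.KT.Stm

/-!
Project KT of helper240: jobs KT-RT2 and KT-RT3
-/

set_option autoImplicit false

namespace Pool.Agent.Q162.KT

open Finset Pool.Agent.H376R2.MR Pool.Agent.Q240.KS Pool.Agent.Q240.KT

/-- job KT-RT2 -/
theorem rt2 : S_RT2 := by
  classical
  intro U s K M hs
  unfold NQ PQ
  rw [← card_sigma]
  refine card_le_card_of_injOn (fun p : (ℝ × ℝ) × ℕ × ℕ =>
    (⟨Nat.gcd p.2.1 p.2.2, (p.1, (p.2.1 / Nat.gcd p.2.1 p.2.2, p.2.2 / Nat.gcd p.2.1 p.2.2))⟩ :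
      Sigma fun _ : ℕ => (ℝ × ℝ) × ℕ × ℕ)) ?_ ?_
  · rintro ⟨⟨u, u'⟩, ⟨m, m'⟩⟩ hp
    rw [mem_coe, mem_filter, mem_product, mem_product, mem_product] at hp
    obtain ⟨⟨⟨hu, hu'⟩, ⟨hm, hm'⟩⟩, hlog⟩ := hp
    dsimp only at hu hu' hm hm' hlog
    have h1 := hs m hm
    have h2 := hs m' hm'
    set g := Nat.gcd m m' with hg
    have hg0 : 0 < g := Nat.gcd_pos_of_pos_left _ h1.1
    have hgr : (0 : ℝ) < g := by exact_mod_cast hg0
    have hgm : g ∣ m := Nat.gcd_dvd_left _ _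
    have hgm' : g ∣ m' := Nat.gcd_dvd_right _ _
    obtain ⟨a, ha⟩ := hgm
    obtain ⟨b, hb⟩ := hgm'
    have ha' : m / g = a := by rw [ha, Nat.mul_div_cancel_left _ hg0]
    have hb' : m' / g = b := by rw [hb, Nat.mul_div_cancel_left _ hg0]
    have ha0 : 0 < a := by
      rcases Nat.eq_zero_or_pos a with h | h
      · rw [h, mul_zero] at ha
        omega
      · exact h
    have hb0 : 0 < b := by
      rcases Nat.eq_zero_or_pos b with h | h
      · rw [h, mul_zero] at hb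
        omega
      · exact h
    have har : (0 : ℝ) < a := by exact_mod_cast ha0
    have hbr : (0 : ℝ) < b := by exact_mod_cast hb0
    have hmr : (m : ℝ) = g * a := by exact_mod_cast ha
    have hmr' : (m' : ℝ) = g * b := by exact_mod_cast hb
    rw [mem_coe, mem_sigma]
    refine ⟨?_, ?_⟩
    · show g ∈ Icc 1 ⌊M⌋₊
      rw [mem_Icc]
      refine ⟨hg0, Nat.le_floor ?_⟩
      refine le_trans ?_ h1.2
      exact_mod_cast Nat.le_of_dvd h1.1 (Nat.gcd_dvd_left _ _)
    · show ((u, u'), (m / g, m' / g)) ∈ _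
      rw [mem_filter, mem_product, mem_product, mem_product]
      refine ⟨⟨⟨hu, hu'⟩, ?_, ?_⟩, ?_, ?_⟩
      · show m / g ∈ Icc 1 ⌊M / g⌋₊
        rw [ha', mem_Icc]
        refine ⟨ha0, Nat.le_floor ?_⟩
        rw [le_div_iff₀ hgr, mul_comm, ← hmr]
        exact h1.2
      · show m' / g ∈ Icc 1 ⌊M / g⌋₊
        rw [hb', mem_Icc]
        refine ⟨hb0, Nat.le_floor ?_⟩
        rw [le_div_iff₀ hgr, mul_comm, ← hmr']
        exact h2.2
      · exact Nat.coprime_div_gcd_div_gcd hg0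
      · show |u - u' - (Real.log ((m / g : ℕ) : ℝ) - Real.log ((m' / g : ℕ) : ℝ))| ≤ 1 / (K : ℝ)
        rw [ha', hb']
        rw [hmr, hmr', Real.log_mul hgr.ne' har.ne', Real.log_mul hgr.ne' hbr.ne'] at hlog
        have h3 : Real.log a - Real.log b =
            Real.log g + Real.log a - (Real.log g + Real.log b) := by ring
        rw [h3]
        exact hlog
  · rintro ⟨⟨u, u'⟩, ⟨m, m'⟩⟩ hp ⟨⟨v, v'⟩, ⟨l, l'⟩⟩ hq h
    simp only [Sigma.mk.injEq, heq_eq_eq, Prod.mk.injEq] at h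
    obtain ⟨h1, ⟨h2, h2'⟩, h3, h4⟩ := h
    have h5 : m = l := by
      rw [← Nat.div_mul_cancel (Nat.gcd_dvd_left m m'), h3, h1,
        Nat.div_mul_cancel (Nat.gcd_dvd_left l l')]
    have h6 : m' = l' := by
      rw [← Nat.div_mul_cancel (Nat.gcd_dvd_right m m'), h4, h1,
        Nat.div_mul_cancel (Nat.gcd_dvd_right l l')]
    subst h2 h2' h5 h6
    rfl

/-- a separated finite set in a short interval -/
theorem sep_card {α : Type} (s : Finset α) (f : α → ℝ) (c r δ : ℝ) (hδ : 0 < δ) (hr : 0 ≤ r)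
    (h1 : ∀ x ∈ s, |c - f x| ≤ r) (h2 : ∀ x ∈ s, ∀ y ∈ s, x ≠ y → δ ≤ |f x - f y|) :
    (s.card : ℝ) ≤ 1 + 2 * r / δ := by
  classical
  have h3 : s.card ≤ (range (⌊2 * r / δ⌋₊ + 1)).card := by
    refine card_le_card_of_injOn (fun x => ⌊(f x - (c - r)) / δ⌋₊) ?_ ?_
    · intro x hx
      rw [mem_coe] at hx
      rw [mem_coe, mem_range, Nat.lt_succ_iff]
      refine Nat.floor_le_floor ?_
      have h4 := abs_le.mp (h1 x hx)
      gcongr
      linarith
    · intro x hx y hy hxy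
      rw [mem_coe] at hx hy
      by_contra hne
      have h4 := h2 x hx y hy hne
      have hx' := abs_le.mp (h1 x hx)
      have hy' := abs_le.mp (h1 y hy)
      have hx0 : 0 ≤ (f x - (c - r)) / δ := div_nonneg (by linarith) hδ.le
      have hy0 : 0 ≤ (f y - (c - r)) / δ := div_nonneg (by linarith) hδ.le
      have h5 := Nat.floor_le hx0
      have h6 := Nat.floor_le hy0
      have h7 := Nat.lt_floor_add_one ((f x - (c - r)) / δ)
      have h8 := Nat.lt_floor_add_one ((f y - (c - r)) / δ)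
      have hxy' : ⌊(f x - (c - r)) / δ⌋₊ = ⌊(f y - (c - r)) / δ⌋₊ := hxy
      rw [hxy'] at h5 h7
      have h9 : |(f x - (c - r)) / δ - (f y - (c - r)) / δ| < 1 := by
        rw [abs_lt]
        constructor <;> linarith
      have h10 : (f x - (c - r)) / δ - (f y - (c - r)) / δ = (f x - f y) / δ := by ring
      rw [h10, abs_div, abs_of_pos hδ, div_lt_one hδ] at h9
      linarith
  rw [card_range] at h3
  have h4 : (s.card : ℝ) ≤ (⌊2 * r / δ⌋₊ : ℝ) + 1 := by exact_mod_cast h3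
  have h5 := Nat.floor_le (show 0 ≤ 2 * r / δ by positivity)
  linarith

theorem log_sep {a b a' b' : ℕ} {H : ℝ} (ha : 1 ≤ a) (hb : 1 ≤ b) (ha' : 1 ≤ a') (hb' : 1 ≤ b')
    (haH : (a : ℝ) ≤ H) (hbH' : (b' : ℝ) ≤ H) (h : a' * b < a * b') :
    1 / H ^ 2 ≤ Real.log a - Real.log b - (Real.log a' - Real.log b') := by
  have ha0 : (0 : ℝ) < a := by exact_mod_cast ha
  have hb0 : (0 : ℝ) < b := by exact_mod_cast hb
  have ha0' : (0 : ℝ) < a' := by exact_mod_cast ha'
  have hb0' : (0 : ℝ) < b' := by exact_mod_cast hb'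
  have h1 : Real.log a - Real.log b - (Real.log a' - Real.log b') =
      Real.log ((a * b') / (a' * b)) := by
    rw [Real.log_div (by positivity) (by positivity), Real.log_mul ha0.ne' hb0'.ne',
      Real.log_mul ha0'.ne' hb0.ne']
    ring
  rw [h1]
  have h2 := Real.one_sub_inv_le_log_of_pos (show (0 : ℝ) < (a * b') / (a' * b) by positivity)
  refine le_trans ?_ h2
  rw [inv_div]
  have h3 : (a' : ℝ) * b + 1 ≤ a * b' := by exact_mod_cast h
  have h4 : (a : ℝ) * b' ≤ H ^ 2 := by nlinarith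
  have h5 : (0 : ℝ) < a * b' := by positivity
  have h6 : 1 / H ^ 2 ≤ 1 / ((a : ℝ) * b') := one_div_le_one_div_of_le h5 h4
  refine h6.trans ?_
  rw [div_le_iff₀ h5, sub_mul, div_mul_cancel₀ _ h5.ne']
  linarith

/-- job KT-RT3 -/
theorem rt3 : S_RT3 := by
  classical
  intro U K τ H hK hτ hH
  have hK0 : (0 : ℝ) < K := by exact_mod_cast hK
  have hH0 : 0 < H := by linarith
  set T : Finset (ℕ × ℕ) := Icc 1 ⌊H⌋₊ ×ˢ Icc 1 ⌊H⌋₊ with hT
  have hfib : PQ U K τ H = ∑ q ∈ U ×ˢ U, (T.filter fun p : ℕ × ℕ =>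
      Nat.Coprime p.1 p.2 ∧ |q.1 - q.2 - (Real.log p.1 - Real.log p.2)| ≤ τ / (K : ℝ)).card := by
    unfold PQ
    simp only [card_filter]
    rw [sum_product]
  have hone : ∀ q ∈ U ×ˢ U, ((T.filter fun p : ℕ × ℕ =>
      Nat.Coprime p.1 p.2 ∧ |q.1 - q.2 - (Real.log p.1 - Real.log p.2)| ≤ τ / (K : ℝ)).card : ℝ) ≤
      1 + 2 * τ * H ^ 2 / K := by
    intro q _
    have h1 := sep_card (T.filter fun p : ℕ × ℕ =>
      Nat.Coprime p.1 p.2 ∧ |q.1 - q.2 - (Real.log p.1 - Real.log p.2)| ≤ τ / (K : ℝ))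
      (fun p => Real.log p.1 - Real.log p.2) (q.1 - q.2) (τ / K) (1 / H ^ 2) (by positivity)
      (by positivity) (fun x hx => (mem_filter.mp hx).2.2) ?_
    · refine h1.trans (le_of_eq ?_)
      field_simp
    · rintro ⟨a, b⟩ hx ⟨a', b'⟩ hy hne
      rw [mem_filter, hT, mem_product, mem_Icc, mem_Icc] at hx hy
      dsimp only at hx hy ⊢
      obtain ⟨⟨⟨ha, haH⟩, hb, hbH⟩, hab, -⟩ := hx
      obtain ⟨⟨⟨ha', haH'⟩, hb', hbH'⟩, hab', -⟩ := hy
      have hf := Nat.floor_le hH0.le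
      have haH2 : (a : ℝ) ≤ H := le_trans (by exact_mod_cast haH) hf
      have hbH2 : (b : ℝ) ≤ H := le_trans (by exact_mod_cast hbH) hf
      have haH2' : (a' : ℝ) ≤ H := le_trans (by exact_mod_cast haH') hf
      have hbH2' : (b' : ℝ) ≤ H := le_trans (by exact_mod_cast hbH') hf
      rcases lt_trichotomy (a' * b) (a * b') with h | h | h
      · have h2 := log_sep ha hb ha' hb' haH2 hbH2' h
        exact h2.trans (le_abs_self _)
      · exfalso
        apply hne
        have h2 : a ∣ a' := by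
          have h3 : a ∣ a' * b := by rw [h]; exact Nat.dvd_mul_right _ _
          exact hab.dvd_of_dvd_mul_right h3
        have h3 : a' ∣ a := by
          have h4 : a' ∣ a * b' := by rw [← h]; exact Nat.dvd_mul_right _ _
          exact hab'.dvd_of_dvd_mul_right h4
        have h4 : a = a' := Nat.dvd_antisymm h2 h3
        subst h4
        have h5 : b = b' := Nat.eq_of_mul_eq_mul_left ha h
        rw [h5]
      · have h2 := log_sep ha' hb' ha hb haH2' hbH2 h
        rw [abs_sub_comm]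
        exact h2.trans (le_abs_self _)
  rw [hfib]
  push_cast
  calc ∑ q ∈ U ×ˢ U, ((T.filter fun p : ℕ × ℕ =>
      Nat.Coprime p.1 p.2 ∧ |q.1 - q.2 - (Real.log p.1 - Real.log p.2)| ≤ τ / (K : ℝ)).card : ℝ)
      ≤ ∑ _q ∈ U ×ˢ U, (1 + 2 * τ * H ^ 2 / K) := sum_le_sum hone
    _ = (U.card : ℝ) ^ 2 * (1 + 2 * τ * H ^ 2 / K) := by
        rw [sum_const, card_product, nsmul_eq_mul]
        push_cast
        ring

end Pool.Agent.Q162.KT
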